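import Mathlib
import Pool.Agent.H855.HG.Pow

/-!
# The Hodge realization on the category of motives generated by a variety `Y` and the varieties of CM type: one
small exceptional space for all products `X^r × Y^s`

Let `k` be an algebraically closed field contained in `ℂ`. Question 1 for the tannakian category of
motives generated by the motives of the varieties `X_1, ..., X_n` is the question whether all Hodge
classes on all products of powers of the `X_i` are absolute Hodge classes. We consider two varieties
`X` and `Y` over `k`, where `X` is of CM type.

A function `x` on the complex embeddings of a field is odd if `x (conj φ) = - x φ`. A CM type `Φ` of
a CM field is the same thing as the odd function `x` with the value `1` on `Φ` and `- 1` on the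
conjugate embeddings.

**Types.** Let `Y` be a smooth projective complex variety. The Hodge operator on its cohomology is
the multiplication by `p - q` on `H^(p, q)` (`HodgeSpace`). A vector `w` of `H(Y, ℂ)` has the types
`d` if for each automorphism `σ` of the field `ℂ` the conjugate `σ w` (the conjugate of the
coordinates in a rational basis) is a sum of classes of types `(p, q)` with `p - q = d σ`
(`HasTypes`). These vectors generate the part of CM type of the cohomology (`cmPart`). The types of
a rational Hodge class are `d = 0`.

**The varieties `X`.** Let `x j` be integral odd functions on the complex embeddings of CM fields `L
j`, `j` in a finite set. Let `X` be a smooth projective complex variety of CM type, that is with a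
commutative Mumford-Tate group; this means that `H(X, ℂ)` is generated by vectors with types
(`IsOfCMType`). We suppose that for all vectors with types `d` a multiple of `d` is a sum `σ ↦ ∑ m
(j, ψ) * x j (σ ψ)` over the embeddings `ψ` of the fields `L j` (`IsGeneratedBy`). For instance `X`
can be **any** abelian variety isogenous to a product of powers of the abelian varieties of CM types
`(L j, Φ j)`, or a variety whose cohomology is built from the cohomology of such abelian varieties,
like the Fermat hypersurfaces, or K3 surfaces with complex multiplication. **Every** `X` of CM type
is obtained in this way from suitable CM fields. The Hodge classes on `X` can be exotic (not
polynomials in divisor classes).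

**The space of the characters.** Let `T` be the matrix of the Hodge operator of `Y` in a rational
basis, and let `g` be the smallest complex space of matrices which contains all conjugates `σ⁻¹ T`
and the commutators of its elements (`lie`): **the Lie algebra of the Hodge group of `Y`** (with
complex coefficients). Let `V` be the space of the rational functions `σ ↦ l (σ⁻¹ T)` on the
automorphisms `σ` of `ℂ`, where `l` is a linear function on the matrices which is zero on the
commutators of elements of `g` (`charSpace`). For a CM field `E` let `V(E)` be the space of the odd
real functions `f` on the complex embeddings of `E` such that for all embeddings `φ` the function `σ
↦ f (σ φ)` is in `V` (`excSpace`): **the exceptional space of `E`**; it depends only on the Hodge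
structure of `Y` and on `E`.

**The theorem.** Let `Y` be **any** smooth projective variety, and `d = dim V`.

1. The exceptional spaces are small (`CharactersAreSmall`): **`d + dim [g, g] ≤ dim g`**, so `d` is
   at most the dimension of the center of the Hodge group of `Y`; `dim V(E) ≤ d` for all CM fields
   `E`; and there are at most `d` pairwise unrelated CM fields `E i` with `V(E i) ≠ 0`, more
   precisely `∑ m i ≤ d`, where `m i` is a lower bound for the dimensions of the nonzero stable
   spaces of odd rational functions on the embeddings of `E i` (`IsLowerBound`). (Two fields are
   unrelated if there are no nonzero equivariant maps between their odd functions.)
2. Let `x j` be integral odd functions on the embeddings of CM fields `L j` such that **no nonzero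
   vector of the spaces `V(L j)` is a combination of the `x j`** (`ForAllOutside`), and let `X` be
   **any** variety of CM type whose types are generated by the `x j`. Then for **all `r` and `s`**
   * the Hodge classes on `X^r × Y^s` are exactly the sums of products of Hodge classes on `X^r` and
     `Y^s` (`HodgeOnAllPowers`);
   * **all Hodge classes on all the products `X^r × Y^s` are absolute if and only if all Hodge
     classes on all the powers `X^r` and on all the powers `Y^s` are: question 1 for the category of
     motives generated by `X` and `Y` is equivalent to question 1 for the categories generated by
     `X` and by `Y`** (`AbsoluteOnAllPowers`);
   * if all Hodge classes on `X^r` are absolute the absolute Hodge classes on `X^r × Y^s` are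
     exactly the sums of products of Hodge classes on `X^r` and absolute Hodge classes on `Y^s`.

A vector `v` on the embeddings of a field `E` is a combination of the `x j` (`IsComb`) if it is the
sum of the images of the `x j` under equivariant maps: `v φ = ∑ t φ (j, ψ) * x j ψ` with rational
numbers `t φ (j, ψ)` which are invariant under the automorphisms of `ℂ`, odd in `ψ`, and zero if the
fields `E` and `L j` are unrelated.

**Consequences.** If `X` is an abelian variety of CM type, or its motive is in the category
generated by abelian varieties, the condition for `X` is satisfied (Deligne). So for `X` outside of
the exceptional spaces **the realization is fully faithful on the category generated by `Y` if and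
only if it is fully faithful on the category generated by `X` and `Y`**, for instance also for the
non-abelian `Y` for which question 1 is known.

* If the Hodge group of `Y` is semisimple then `g = [g, g]`, `d = 0` and there are no exceptions
  (this case is known for Hodge classes: Imai, Hazama).
* If `E` is a CM field such that the odd functions on its embeddings are irreducible and `[E : ℚ] >
  2 d` then `V(E) = 0`: there is no condition for the `X` with complex multiplication by `E`. For
  instance, if `d = 1`, this is true for all CM fields `E` which do not contain an imaginary
  quadratic field.
* If the odd functions on the embeddings of `E` are absolutely irreducible, the condition for `X`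
  with the CM type `x` of `E` is that `x` is not in `V(E)`.

(Some condition is necessary: for `X = Y` of CM type there are Hodge classes on `X × Y` which are
not sums of products.)

**Relation.** The result `TimesCMVarieties` on MP_4e1cf2_ag is about `X × Y` only, for one `Y`:
there is a finite set of exceptional vectors, whose number is bounded by the Betti numbers of `Y`.
For the powers `Y^s` this gives infinitely many exceptional vectors. Here there is one space of
finite dimension for all powers, bounded by the center of the Hodge group; for `s = 1` it contains
the exceptional vectors of `TimesCMVarieties`, and neither theorem contains the other one. It is
equivalent to say that the Mumford-Tate group of `X × Y` is as large as possible. The results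
`CMTypesTimes` (library) and `SmallCoreFields` of this run are about almost all CM types, and about
special fields.

The proof. A vector `w ≠ 0` of the cohomology of `Y^s` with types `d` is an eigenvector of the
derivations given by the conjugates `σ⁻¹ T` (`deriv`, `pow_op`), hence of the derivations given by
all elements of `g`, and the eigenvalue is a linear function `l` of the element of `g` which
vanishes on the commutators; so `d σ = l (σ⁻¹ T)` is in `V` (`type_mem_charSpace`). The space `V` is
stable under translations (`translates_charSpace`). Choose automorphisms `σ_k` such that the classes
of the `σ_k⁻¹ T` form a basis of the space generated by the classes of all `σ⁻¹ T` in `g / [g, g]`;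
a function in `V` is determined by its values at the `σ_k` (`finrank_charQ`). The power `X^r` is of
CM type and generated by the `x j` (`span_pow`).

Take a basis `e k` of `H(X^r, ℂ)` of vectors with types `d k`, and write a Hodge class on `X^r ×
Y^s` as `∑ e k ⊗ y k`. Since it is rational its conjugates are the same class `∑ σ (e k) ⊗ σ (y k)`,
so that the `y k` have the types `- d k` (`kunneth`). Some multiple of `d k` is a sum of values `x j
(σ ψ)`; since the functions `x j` are odd, `- d k` is the value of an odd relation with rational
coefficients. If it is not zero there is a vector `v ≠ 0` on the embeddings of one of the fields `L
j` whose translates are combinations of the translates of `- d k` (`exists_vector`), so that `v` is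
in `V(L j)`, and `v` is a combination of the `x j` (`isComb_of`), a contradiction. So `d k = 0` or
`y k = 0` for all `k`, and the class is a sum of products of Hodge classes. The absolute Hodge
classes: `absoluteOnProducts`. The sizes: `f ↦ (σ ↦ f (σ φ))` is an injective map from `V(E)` to `V`
(`finrank_excSpace`), and for pairwise unrelated fields the images are independent (`sum_le`).
-/

set_option autoImplicit false

namespace Pool.Agent.Results.MP_0da4e0_ag.AllPowersWithCM

open NumberField Pool.Agent.H855.HG

/-- **For every smooth projective variety `Y` and all varieties `X` of CM type outside of the exceptional spaces
of `Y`, whose dimensions are at most the dimension of the center of the Hodge group of `Y`: the Hodge classes on all the products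
`X^r × Y^s` are sums of products, and all of them are absolute if and only if this is true for the powers of `X` and for
the powers of `Y`.** -/
theorem result (B : Type) [Fintype B] (Y : HodgeSpace B) :
    CharactersAreSmall Y ∧
      ForAllOutside Y.charSpace (fun _ _ X => HodgeOnAllPowers X Y ∧ AbsoluteOnAllPowers X Y) :=
  ⟨charactersAreSmall Y, forAllOutside Y⟩

end Pool.Agent.Results.MP_0da4e0_ag.AllPowersWithCM
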