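import Pool.Agent.H367.OS.OFac

/-!
# Hodge classes over `ℚ̄` in one codimension and single pieces of one sequence of cubics

A relation `r` of size `m` is one of the equations `x_i x_j = x_l`, `x_i + x_j = x_l`, `x_i = 1` with
`i, j, l < m`; the relations are numbered, the number of `r` is `ν(r)` (`relNum`). Let `G_m` be the
following polynomial with integral coefficients (`univG ℤ m`). There are variables `x_i` and `z_ij` for
`i, j < m`, a variable `c_r` for every relation `r`, and variables `y_{r,l}` for all relations `r` and
`l < (m + 1) 2 ^ ν(r)`. The equations (`eqnG`) are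

  `z_ij - x_i x_j`,  `c_r ^ 2 - c_r`,  `c_r ρ_r`,  `(1 - c_r) y_{r,l}`,

where `ρ_r` is the linear polynomial `z_ij - x_l`, `x_i + x_j - x_l` or `x_i - 1` of the relation.
`G_m` is the sum of the equations multiplied by further variables `t_e`, one for each equation. It has
degree three. Let `C_m` be the affine cubic hypersurface `G_m = 1` (`cubG R m` over the ring `R`); it is
smooth over the integers.

Let `K` be the field of all algebraic numbers, with an embedding `σ` in `ℂ`. Let `M` and `M'` be the
categories of motives for absolute Hodge cycles over `ℚ` and over `K`, semisimple abelian categories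
with Tate twists `N ↦ N(a)`, `one` the unit object of `M'`, `β : M ⥤ M'` the base change, and `ω =
H_σ` the Hodge realization of `M'`. For a separated scheme `X` of finite type over `ℚ` let `D.G w j X
= Gr^W_w H^j_c(X)` be the part of weight `w` of the cohomology with compact supports, a motive over
`ℚ`; for smooth projective `Y` it is `h^j(Y)` if `j = w`, and zero otherwise.

`Covers one β ω N` says that every morphism from `ω(1)` to `ω(β N)` comes from a morphism `1 → β N`:
every Hodge class of `β N` is absolute Hodge.

For a smooth projective scheme `V` over `K` let `C.hodge n V` be the space of the Hodge classes of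
codimension `n` on `σV(ℂ)`, and `C.absolute n V` the space of the absolute Hodge classes. Question Q1
for `k = K` says that `ω` is full (it is faithful), which is equivalent to `C.hodge n V ≤ C.absolute n
V` for all `V` and `n` (hypothesis `full`, see the problem file). Every `V` is an open and closed
subscheme of `Y_K` for a smooth projective scheme `Y` over `ℚ` (hypothesis `FromQalg`).

**Theorem.** Let `E_m` be the number of the equations, and for `N ∈ ℕ` let `e = (m + 1) N + E_m - 1`
(`esh m N`).

(1) For every `n` all Hodge classes of codimension `n` on all smooth projective varieties over `K` are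
absolute Hodge if and only if for infinitely many `m` all Hodge classes of the single motives
`Gr^W_{2n+2e} H^{2n+2e+1}_c(C_m)(n + e)` of weight `0` (over `K`) are absolute Hodge, for all `N`. The
first open case is `n = 2`.

(2) Question Q1 for the field `K` has a positive answer if and only if this is true for all `n`.

(3) The hypersurfaces `C_m` decide the statement for the pieces of the cohomology (`DecidesPieces`).
For every affine scheme `Spec B` of finite type over `ℚ` and all large `m` there is an `N` such that
for `0 ≤ w ≤ 2 m + 1` and all `j` the statement for `Gr^W_w H^j_c(Spec B)` is equivalent to the one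
for `Gr^W_{w+2e} H^{j+2e+1}_c(C_m)`. For every smooth projective `Y` over `ℚ`, every `d` and all large
`m` there is an `e'` such that for all `i ≤ d` the statement for `h^i(Y)` is equivalent to the one for
`Gr^W_{i+2e'} H^{i+2e'+1}_c(C_m)`. The statements for the pieces of one `C_m` imply those for all
pieces of a given separated scheme `X` of finite type. (In all these statements there are the same
Tate twists on both sides, up to the shift by `e`.)

(4) The case `n = 1` is known (Lefschetz): the Hodge classes of the motives
`Gr^W_{2+2e} H^{2e+3}_c(C_m)(1 + e)` are absolute Hodge, for infinitely many `m` and all `N`.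

(5) `G_m` has integral coefficients and degree at most three, and `C_m` is smooth over all rings.

The hypotheses on the motives are standard (`IsMot`): exact sequences, affine bundles, disjoint unions,
the cohomology of affine spaces, the weights of `H^j_c(X)` are between `0` and `2 dim X`, monomorphisms
split, `Gr^W_w H^j_c(X)` is a direct factor of `h^w(Y)` for some smooth projective `Y` (it is a
subquotient, by the weight spectral sequence), and every smooth projective scheme has an affine bundle
whose total space is affine (Jouanolou).

Idea of the proof. The projection of `C_m` to the affine space with the coordinates `x, z, c, y` is an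
affine bundle over the complement of the zero set `W_m` of the equations. The scheme `W_m` is the
disjoint union, over all sets `s` of relations (`c_r = 1` for `r ∈ s` and `c_r = 0` for the others), of
the products `X_s × 𝔸 ^ ((m + 1) N(s))`, where `X_s` is the affine scheme defined by the relations in
`s` and `N(s) = ∑_{r ∈ s} 2 ^ ν(r)`. The numbers `N(s)` are different, and the weights of the
cohomology of `X_s` are between `0` and `2 m`. So the part of weight `w + 2 (m + 1) N(s)`,
`0 ≤ w ≤ 2 m + 1`, of the cohomology of `W_m` is the twist of the part of weight `w` of the cohomology of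
`X_s`, and it is different from the weight of the cohomology of the affine space. Every affine scheme of
finite type over a prime field is an `X_s`, for all large `m`. The pieces of the cohomology of an
arbitrary scheme are direct factors of those of a disjoint union of affine schemes.

The universal system of relations is the one of helper854 (`Pool.Agent.H854.SQ`).
-/

set_option autoImplicit false

open CategoryTheory CategoryTheory.Limits AlgebraicGeometry Pool.Agent.Y116.UV Pool.Agent.Z125.UN
  Pool.Agent.Q193.LT Pool.Agent.H854.SQ Pool.Agent.H367.OS

universe w v u



namespace Pool.Agent.Results.MP_0da4e0_ag.PiecesOfOneSequence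

/-- The Hodge classes and the absolute Hodge classes of codimension `n` of the smooth projective schemes
over `K`. -/
structure Classes (K : Type) [Field K] where
  /-- the cohomology `H^{2n}(V)(n)` -/
  H : ℕ → Sch K → ModuleCat.{w} ℚ
  /-- the Hodge classes -/
  hodge : ∀ n V, Submodule ℚ (H n V)
  /-- the absolute Hodge classes -/
  absolute : ∀ n V, Submodule ℚ (H n V)

/-- All Hodge classes of codimension `n` are absolute Hodge. -/
def AllAbsolute {K : Type} [Field K] (C : Classes.{w} K) (n : ℕ) (V : Sch K) : Prop :=
  C.hodge n V ≤ C.absolute n V

/-- **Hodge classes over `ℚ̄` and single pieces of one sequence of cubic hypersurfaces over the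
integers.** See the explanations above. -/
theorem result {K : Type} [Field K] [Algebra ℚ K] [IsAlgClosure ℚ K]
    {M : Type u} [Category.{v} M] [Abelian M] {M' : Type u} [Category.{v} M']
    {Hod : Type u} [Category.{v} Hod] {D : Pieces ℚ M} (h : IsMot D) {one : M'} {β : M ⥤ M'}
    {ω : M' ⥤ Hod} {C : Classes.{w} K}
    (describes : ∀ n : ℕ, FromQalg K (AllAbsolute C n) fun Y =>
      Covers one β ω ((D.tw n).obj (D.G (2 * n) (2 * n) Y)))
    (full : ω.Full ↔ ∀ (n : ℕ) (V : Sch K), SmoothProj V → AllAbsolute C n V)
    (lefschetz : ∀ Y : Sch ℚ, SmoothProj Y → Covers one β ω ((D.tw 1).obj (D.G 2 2 Y))) :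
    (∀ n : ℕ, (∀ V : Sch K, SmoothProj V → AllAbsolute C n V) ↔
      ∃ᶠ m in Filter.atTop, ∀ N : ℕ, Covers one β ω ((D.tw (n + esh m N)).obj
        (D.G (2 * n + 2 * esh m N) (2 * n + 2 * esh m N + 1) (cubG ℚ m)))) ∧
    (ω.Full ↔ ∀ n : ℕ, ∃ᶠ m in Filter.atTop, ∀ N : ℕ, Covers one β ω ((D.tw (n + esh m N)).obj
      (D.G (2 * n + 2 * esh m N) (2 * n + 2 * esh m N + 1) (cubG ℚ m)))) ∧
    DecidesPieces D (Covers one β ω) ∧
    (∃ᶠ m in Filter.atTop, ∀ N : ℕ, Covers one β ω ((D.tw (1 + esh m N)).obj
      (D.G (2 + 2 * esh m N) (2 + 2 * esh m N + 1) (cubG ℚ m)))) ∧
    ∀ m : ℕ, (univG ℤ m).totalDegree ≤ 3 ∧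
      ∀ (R : Type) [CommRing R], MvPolynomial.map (Int.castRingHom R) (univG ℤ m) = univG R m ∧
        Smooth (cubG R m).hom := by
  have hf : FactorClosed (Covers one β ω) := covers_closed one β ω
  have hd := decides_pieces isPrimeField_rat h hf
  have h1 : ∀ n : ℕ, (∀ V : Sch K, SmoothProj V → AllAbsolute C n V) ↔
      ∃ᶠ m in Filter.atTop, ∀ N : ℕ, Covers one β ω ((D.tw (n + esh m N)).obj
        (D.G (2 * n + 2 * esh m N) (2 * n + 2 * esh m N + 1) (cubG ℚ m))) := by
    intro n
    have h2 := (hd.weight (2 * n) n).out 1 0
    push_cast at h2
    exact (describes n).all.trans h2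
  refine ⟨h1, ?_, hd, ?_, cubG_facts⟩
  · rw [full]
    exact forall_congr' h1
  · have h2 := ((hd.weight 2 1).out 1 0).mp lefschetz
    simpa using h2

end Pool.Agent.Results.MP_0da4e0_ag.PiecesOfOneSequence
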